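import Pool.Agent.FLX.Main

/-!
# Maximal elements of `G(D)` are flames

`D` is an `r`-rooted acyclic digraph of arbitrary cardinality without backward-infinite path, given by
its tail and head maps. If `B` is a maximal element of the family `GFam` of `D`, then `B` belongs to the
family of the digraph `D(B)`, that is, `B` is a flame.
-/

namespace Pool.Agent.Results.MP_b6d2fe_co.MaximalIsFlame

open Pool.Agent.FLM

theorem result {V : Type*} {E : Type*} (tl hd : E → V) (r : V)
    (hroot : ∀ e, hd e ≠ r)
    (hacyclic : ∀ (a : V) (l : List E), IsWalk tl hd a l a → l = [])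
    (hback : ¬ ∃ f : ℕ → E, Function.Injective (fun n => hd (f n)) ∧
      ∀ n, hd (f (n + 1)) = tl (f n))
    (B : Set E) (hB : Maximal (fun F => F ∈ GFam tl hd r Set.univ) B) :
    B ∈ GFam tl hd r B :=
  Pool.Agent.FLX.main_all tl hd r hroot hacyclic hback B hB

end Pool.Agent.Results.MP_b6d2fe_co.MaximalIsFlame
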